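import Pool.Agent.helper64.Star.Upper

/-!
# The maximum number of main vertices in a star set

For every `n ≥ 1` the maximum of `ℵ_max(μ, G)`, over the connected graphs `G` with `n` vertices and
their main eigenvalues `μ`, is `max(1, n - 4)`.
-/

open Finset

namespace Pool.Agent.Results.MP_bb681f_co.MainVertices

open Pool.Agent.helper64.Star

section Complete

theorem res_top {n : ℕ} (x : Fin n → ℝ) (v : Fin n) :
    res (⊤ : SimpleGraph (Fin n)) ((n : ℝ) - 1) x v = ∑ u, x u - n * x v := by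
  unfold res
  have h1 : ∑ w, adj (⊤ : SimpleGraph (Fin n)) v w * x w = ∑ u, x u - x v := by
    rw [← Finset.add_sum_erase _ _ (Finset.mem_univ v), adj_self, zero_mul, zero_add,
      ← Finset.add_sum_erase univ x (Finset.mem_univ v), add_sub_cancel_left]
    refine Finset.sum_congr rfl fun w hw => ?_
    rw [adj_of _ (by rw [SimpleGraph.top_adj]; exact (Finset.ne_of_mem_erase hw).symm), one_mul]
  rw [h1]; ring

theorem complete_case {n : ℕ} (hn : 1 ≤ n) :
    ∃ (G : SimpleGraph (Fin n)) (μ : ℝ), G.Connected ∧ IsMain G μ ∧ 1 ≤ alephMax G μ := by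
  classical
  have hne : Nonempty (Fin n) := ⟨⟨0, by omega⟩⟩
  have hn0 : (n : ℝ) ≠ 0 := by positivity
  set o : Fin n := ⟨0, by omega⟩
  have hone : ∀ v, res (⊤ : SimpleGraph (Fin n)) ((n : ℝ) - 1) 1 v = 0 := by
    intro v; rw [res_top]; simp
  have hsum1 : ∑ v : Fin n, (1 : Fin n → ℝ) v ≠ 0 := by simpa using hn0
  have hN : Nonsing (⊤ : SimpleGraph (Fin n)) ((n : ℝ) - 1) (univ.erase o) := by
    intro x hx hx0
    have hxo : x o = 0 := hx o (by simp)
    have h1 : ∀ v, v ≠ o → n * x v = ∑ u, x u := by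
      intro v hv
      have h2 := hx0 v (by simp [hv])
      rw [res_top] at h2
      linarith
    have h2 : n * ∑ u, x u = (n - 1) * ∑ u, x u := by
      calc n * ∑ u, x u = n * ∑ u ∈ univ.erase o, x u := by
            rw [← Finset.add_sum_erase _ _ (Finset.mem_univ o), hxo, zero_add]
        _ = ∑ u ∈ univ.erase o, n * x u := by rw [Finset.mul_sum]
        _ = ∑ u ∈ univ.erase o, ∑ v, x v :=
            Finset.sum_congr rfl fun u hu => h1 u (Finset.ne_of_mem_erase hu)
        _ = (n - 1) * ∑ u, x u := by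
            rw [Finset.sum_const, Finset.card_erase_of_mem (Finset.mem_univ o), Finset.card_univ,
              Fintype.card_fin, nsmul_eq_mul, Nat.cast_sub hn, Nat.cast_one]
    have h3 : ∑ u, x u = 0 := by linarith
    funext v
    by_cases hv : v = o
    · rw [hv, hxo]; rfl
    · have h4 := h1 v hv
      rw [h3] at h4
      exact (mul_eq_zero.1 h4).resolve_left hn0
  have hstar : IsStarSet (⊤ : SimpleGraph (Fin n)) ((n : ℝ) - 1) {o} :=
    isStarSet_of _ _ {o} (univ.erase o) (by simp) hN fun w hw =>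
      ⟨1, (mem_eig _ _).2 hone, rfl, fun z hz hzw =>
        absurd ((Finset.mem_singleton.1 hz).trans (Finset.mem_singleton.1 hw).symm) hzw⟩
  refine ⟨⊤, (n : ℝ) - 1, SimpleGraph.connected_top, ⟨1, (mem_eig _ _).2 hone, hsum1⟩, ?_⟩
  have := le_alephMax _ _ _ hstar fun v hv => mem_mainVertices_of _ _ _ hv 1
    (fun u hu huv => absurd ((Finset.mem_singleton.1 hu).trans
      (Finset.mem_singleton.1 hv).symm) huv) hone hsum1
  simpa using this

end Complete

section Path

/-- The path `3 - 2 - 1 - 0` with the further vertices `4, …, n - 1` joined to `0`. -/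
def brush (n : ℕ) : SimpleGraph (Fin n) :=
  SimpleGraph.fromRel fun i j : Fin n =>
    (i.1 = 0 ∧ (j.1 = 1 ∨ 4 ≤ j.1)) ∨ (i.1 = 1 ∧ j.1 = 2) ∨ (i.1 = 2 ∧ j.1 = 3)

theorem brush_adj {n : ℕ} {i j : Fin n} : (brush n).Adj i j ↔
    ((i.1 = 0 ∧ (j.1 = 1 ∨ 4 ≤ j.1)) ∨ (i.1 = 1 ∧ j.1 = 2) ∨ (i.1 = 2 ∧ j.1 = 3)) ∨
    ((j.1 = 0 ∧ (i.1 = 1 ∨ 4 ≤ i.1)) ∨ (j.1 = 1 ∧ i.1 = 2) ∨ (j.1 = 2 ∧ i.1 = 3)) := by
  unfold brush
  rw [SimpleGraph.fromRel_adj]
  constructor
  · exact fun h => h.2
  · intro h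
    refine ⟨fun h' => ?_, h⟩
    subst h'
    omega

theorem brush_connected {n : ℕ} (hn : 5 ≤ n) : (brush n).Connected := by
  have h0 : ∀ j : Fin n, (brush n).Reachable ⟨0, by omega⟩ j := by
    intro j
    have h1 : (brush n).Reachable ⟨0, by omega⟩ ⟨1, by omega⟩ :=
      SimpleGraph.Adj.reachable (brush_adj.2 (by simp))
    have h2 : (brush n).Reachable ⟨1, by omega⟩ ⟨2, by omega⟩ :=
      SimpleGraph.Adj.reachable (brush_adj.2 (by simp))
    have h3 : (brush n).Reachable ⟨2, by omega⟩ ⟨3, by omega⟩ :=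
      SimpleGraph.Adj.reachable (brush_adj.2 (by simp))
    rcases j with ⟨j, hj⟩
    by_cases hj0 : j = 0
    · subst hj0; exact SimpleGraph.Reachable.refl _
    by_cases hj1 : j = 1
    · subst hj1; exact h1
    by_cases hj2 : j = 2
    · subst hj2; exact h1.trans h2
    by_cases hj3 : j = 3
    · subst hj3; exact (h1.trans h2).trans h3
    · exact SimpleGraph.Adj.reachable (brush_adj.2 (Or.inl (Or.inl ⟨rfl, Or.inr (by
        change 4 ≤ j; omega)⟩)))
  have hne : Nonempty (Fin n) := ⟨⟨0, by omega⟩⟩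
  exact ⟨fun a b => (h0 a).symm.trans (h0 b)⟩

theorem brush_case {n : ℕ} (hn : 5 ≤ n) :
    (brush n).Connected ∧ IsMain (brush n) 0 ∧ n - 4 ≤ alephMax (brush n) 0 := by
  classical
  set p0 : Fin n := ⟨0, by omega⟩ with hp0
  set p1 : Fin n := ⟨1, by omega⟩ with hp1
  set p2 : Fin n := ⟨2, by omega⟩ with hp2
  set p3 : Fin n := ⟨3, by omega⟩ with hp3
  have d01 : p0 ≠ p1 := by simp [hp0, hp1]
  have d02 : p0 ≠ p2 := by simp [hp0, hp2]
  have d03 : p0 ≠ p3 := by simp [hp0, hp3]
  have d12 : p1 ≠ p2 := by simp [hp1, hp2]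
  have d13 : p1 ≠ p3 := by simp [hp1, hp3]
  have d23 : p2 ≠ p3 := by simp [hp2, hp3]
  -- the eigenvectors
  let y : Fin n → Fin n → ℝ := fun w v => if v = w then 1 else if v = p1 then -1 else
    if v = p3 then 1 else 0
  have hge : ∀ w : Fin n, 4 ≤ w.1 → w ≠ p0 ∧ w ≠ p1 ∧ w ≠ p2 ∧ w ≠ p3 := by
    intro w hw
    refine ⟨?_, ?_, ?_, ?_⟩ <;> (intro h; rw [h] at hw; simp [hp0, hp1, hp2, hp3] at hw)
  have hysupp : ∀ w v, v ∉ insert w ({p1, p3} : Finset (Fin n)) → y w v = 0 := by
    intro w v hv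
    simp only [Finset.mem_insert, Finset.mem_singleton, not_or] at hv
    simp [y, hv.1, hv.2.1, hv.2.2]
  have hyw : ∀ w, y w w = 1 := fun w => by simp [y]
  have hy1 : ∀ w : Fin n, 4 ≤ w.1 → y w p1 = -1 := fun w hw => by
    simp [y, (hge w hw).2.1.symm]
  have hy3 : ∀ w : Fin n, 4 ≤ w.1 → y w p3 = 1 := fun w hw => by
    simp [y, (hge w hw).2.2.2.symm, d13.symm]
  have hysum : ∀ w : Fin n, 4 ≤ w.1 → ∑ v, y w v ≠ 0 := fun w hw => by
    rw [sum_three (hge w hw).2.1 (hge w hw).2.2.2 d13 (y w) (hysupp w), hyw, hy1 w hw, hy3 w hw]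
    norm_num
  have hyres : ∀ w : Fin n, 4 ≤ w.1 → ∀ v, res (brush n) 0 (y w) v = 0 := fun w hw v => by
    unfold res
    rw [sum_three (hge w hw).2.1 (hge w hw).2.2.2 d13 (fun b => adj (brush n) v b * y w b)
      (fun b hb => by simp only [hysupp w b hb, mul_zero]), hyw, hy1 w hw, hy3 w hw]
    by_cases hv0 : v = p0
    · rw [hv0, adj_of (brush n) (brush_adj.2 (by simp [hp0, hp1]) : (brush n).Adj p0 p1),
        adj_of_not (brush n) (fun h' => by rw [brush_adj] at h'; simp [hp0, hp3] at h'),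
        adj_of (brush n) (brush_adj.2 (by simp [hp0, hw]) : (brush n).Adj p0 w)]
      norm_num
    · have hv0' : v.1 ≠ 0 := fun h' => hv0 (Fin.ext h')
      rw [adj_of_not (brush n) (fun h' => by rw [brush_adj] at h'; omega : ¬ (brush n).Adj v w)]
      by_cases hv2 : v = p2
      · rw [hv2, adj_of (brush n) (brush_adj.2 (by simp [hp2, hp1]) : (brush n).Adj p2 p1),
          adj_of (brush n) (brush_adj.2 (by simp [hp2, hp3]) : (brush n).Adj p2 p3)]
        norm_num
      · have hv2' : v.1 ≠ 2 := fun h' => hv2 (Fin.ext h')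
        rw [adj_of_not (brush n) (fun h' => by
            rw [brush_adj] at h'; simp only [hp1] at h'; omega : ¬ (brush n).Adj v p1),
          adj_of_not (brush n) (fun h' => by
            rw [brush_adj] at h'; simp only [hp3] at h'; omega : ¬ (brush n).Adj v p3)]
        norm_num
  have hN : Nonsing (brush n) 0 {p0, p1, p2, p3} := by
    intro x hx hx0
    have hS : ∀ u, ∑ b, adj (brush n) u b * x b = adj (brush n) u p1 * x p1 +
        adj (brush n) u p2 * x p2 + adj (brush n) u p3 * x p3 + adj (brush n) u p0 * x p0 :=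
      fun u => sum_four d01 d02 d03 d12 d13 d23 (fun b => adj (brush n) u b * x b) fun v hv => by
        simp only [hx v hv, mul_zero]
    have e0 := hx0 p0 (by simp)
    have e1 := hx0 p1 (by simp)
    have e2 := hx0 p2 (by simp)
    have e3 := hx0 p3 (by simp)
    have a01 : (brush n).Adj p0 p1 := brush_adj.2 (by simp [hp0, hp1])
    have a12 : (brush n).Adj p1 p2 := brush_adj.2 (by simp [hp1, hp2])
    have a23 : (brush n).Adj p2 p3 := brush_adj.2 (by simp [hp2, hp3])
    have n02 : ¬ (brush n).Adj p0 p2 := fun h' => by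
      rw [brush_adj] at h'; simp only [hp0, hp2] at h'; omega
    have n03 : ¬ (brush n).Adj p0 p3 := fun h' => by
      rw [brush_adj] at h'; simp only [hp0, hp3] at h'; omega
    have n13 : ¬ (brush n).Adj p1 p3 := fun h' => by
      rw [brush_adj] at h'; simp only [hp1, hp3] at h'; omega
    unfold res at e0 e1 e2 e3
    rw [hS] at e0 e1 e2 e3
    rw [adj_of _ a01, adj_of_not _ n02, adj_of_not _ n03, adj_self] at e0
    rw [adj_of _ a01.symm, adj_of _ a12, adj_of_not _ n13, adj_self] at e1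
    rw [adj_of _ a12.symm, adj_of _ a23, adj_of_not _ (fun h' => n02 h'.symm), adj_self] at e2
    rw [adj_of _ a23.symm, adj_of_not _ (fun h' => n13 h'.symm),
      adj_of_not _ (fun h' => n03 h'.symm), adj_self] at e3
    have k1 : x p1 = 0 := by linarith
    have k2 : x p2 = 0 := by linarith
    have k3 : x p3 = 0 := by linarith
    have k0 : x p0 = 0 := by linarith
    funext v
    by_cases hv : v ∈ ({p0, p1, p2, p3} : Finset (Fin n))
    · simp only [Finset.mem_insert, Finset.mem_singleton] at hv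
      rcases hv with rfl | rfl | rfl | rfl <;> assumption
    · exact hx v hv
  set X : Finset (Fin n) := univ.filter fun i => 4 ≤ i.1 with hX
  have hmemX : ∀ v, v ∈ X ↔ 4 ≤ v.1 := fun v => by simp [hX]
  have hS : ∀ v, v ∈ ({p0, p1, p2, p3} : Finset (Fin n)) ↔ v ∉ X := by
    intro v
    rw [hmemX]
    simp only [Finset.mem_insert, Finset.mem_singleton, hp0, hp1, hp2, hp3, Fin.ext_iff]
    omega
  have hcard : X.card = n - 4 := by
    have h1 : X = ({p0, p1, p2, p3} : Finset (Fin n))ᶜ := by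
      ext v; rw [Finset.mem_compl, hS, not_not]
    have h2 : ({p0, p1, p2, p3} : Finset (Fin n)).card = 4 := by
      rw [Finset.card_insert_of_notMem (by simp [d01, d02, d03]),
        Finset.card_insert_of_notMem (by simp [d12, d13]), Finset.card_pair d23]
    rw [h1, Finset.card_compl, Fintype.card_fin, h2]
  have hstar : IsStarSet (brush n) 0 X := by
    refine isStarSet_of _ _ X _ hS hN fun w hw => ⟨y w, (mem_eig _ _).2 ?_, hyw w, ?_⟩
    · exact hyres w ((hmemX w).1 hw)
    · intro z hz hzw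
      have hz' := hge z ((hmemX z).1 hz)
      exact hysupp w z (by simp [hzw, hz'.2.1, hz'.2.2.2])
  refine ⟨brush_connected hn, ⟨y ⟨4, by omega⟩, (mem_eig _ _).2 (hyres _ (le_refl 4)),
    hysum _ (le_refl 4)⟩, ?_⟩
  rw [← hcard]
  refine le_alephMax _ _ X hstar fun v hv => ?_
  have hv4 := (hmemX v).1 hv
  refine mem_mainVertices_of _ _ _ hv (y v) (fun u hu huv => ?_) (hyres v hv4) (hysum v hv4)
  have hu' := hge u ((hmemX u).1 hu)
  exact hysupp v u (by simp [huv, hu'.2.1, hu'.2.2.2])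

end Path

/-- For every `n ≥ 1` the largest value of `ℵ_max(μ, G)`, over the connected graphs `G` of order `n`
and their main eigenvalues `μ`, is `max(1, n - 4)`. -/
theorem result (n : ℕ) (hn : 1 ≤ n) :
    IsGreatest {m : ℕ | ∃ (G : SimpleGraph (Fin n)) (μ : ℝ),
      G.Connected ∧ IsMain G μ ∧ alephMax G μ = m} (max 1 (n - 4)) := by
  have hupper : ∀ (G : SimpleGraph (Fin n)) (μ : ℝ), G.Connected → IsMain G μ →
      alephMax G μ ≤ max 1 (n - 4) := by
    intro G μ hG hm
    have h1 := finrank_le_of_main hG hm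
    rw [Fintype.card_fin] at h1
    exact (alephMax_le G μ).trans h1
  constructor
  · by_cases h6 : 5 ≤ n
    · obtain ⟨h1, h2, h3⟩ := brush_case h6
      refine ⟨brush n, 0, h1, h2, le_antisymm (hupper _ _ h1 h2) ?_⟩
      omega
    · obtain ⟨G, μ, h1, h2, h3⟩ := complete_case hn
      refine ⟨G, μ, h1, h2, le_antisymm (hupper _ _ h1 h2) ?_⟩
      omega
  · rintro m ⟨G, μ, h1, h2, rfl⟩
    exact hupper G μ h1 h2

end Pool.Agent.Results.MP_bb681f_co.MainVertices
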